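import Pool.Agent.Lib.MP_9490e0_al.Lower
import Pool.Agent.Lib.MP_9490e0_al.Upper

/-!
# Linear average-case versus linear generic-case complexity on single-tape Turing machines

For single-tape Turing machines the answer to Q1 is negative, already for the infinite cyclic group
(with one generator).
-/

set_option autoImplicit false

namespace Pool.Agent.Results.MP_9490e0_al.SingleTape

open Pool.Agent.Lib.MP_9490e0_al

/-- Measured on single-tape Turing machines, the word problem of `ℤ` (generating set `{1}`, which
generates) has linear average-case complexity but does not have linear generic-case complexity. -/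
theorem result :
    Subgroup.closure (Set.range (fun _ : Unit => Multiplicative.ofAdd (1 : ℤ))) = ⊤ ∧
      LinearAverageCase (fun _ : Unit => Multiplicative.ofAdd (1 : ℤ)) ∧
      ¬ LinearGenericCase (fun _ : Unit => Multiplicative.ofAdd (1 : ℤ)) := by
  refine ⟨?_, Up.linearAverageCase, not_linearGenericCase⟩
  rw [eq_top_iff]
  intro g _
  have h : g = (Multiplicative.ofAdd (1 : ℤ)) ^ (Multiplicative.toAdd g) := by
    rw [← ofAdd_zsmul, smul_eq_mul, mul_one, ofAdd_toAdd]
  have h1 : Multiplicative.ofAdd (1 : ℤ) ∈
      Subgroup.closure (Set.range (fun _ : Unit => Multiplicative.ofAdd (1 : ℤ))) :=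
    Subgroup.subset_closure (Set.mem_range_self ())
  rw [h]
  exact Subgroup.zpow_mem _ h1 _

end Pool.Agent.Results.MP_9490e0_al.SingleTape
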